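import Mathlib

set_option autoImplicit false
open Finset Equiv

namespace Pool.Agent.Lib.MP_73edb1_nt

variable {ι : Type*} [Fintype ι] [DecidableEq ι]


/-- number of embeddings with a given image -/
lemma card_emb_fiber (n : ℕ) (S : Finset ι) (hS : S.card = n) :
    (univ.filter fun f : Fin n ↪ ι => univ.map f = S).card = n.factorial := by
  have h1 : (univ : Finset (Fin n ↪ S)).card = n.factorial := by
    rw [Finset.card_univ, Fintype.card_embedding_eq]
    simp [hS, Nat.descFactorial_self]
  rw [← h1]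
  symm
  refine Finset.card_bij (fun g _ => g.trans (Function.Embedding.subtype _)) ?_ ?_ ?_
  · intro g _
    simp only [mem_filter, mem_univ, true_and]
    apply Finset.eq_of_subset_of_card_le
    · intro x hx
      simp only [Finset.mem_map, mem_univ, true_and] at hx
      obtain ⟨a, rfl⟩ := hx
      exact (g a).2
    · simp [hS]
  · intro g _ g' _ h
    ext a
    have := congrArg (fun e => e a) h
    simpa using this
  · intro f hf
    simp only [mem_filter, mem_univ, true_and] at hf
    refine ⟨⟨fun a => ⟨f a, ?_⟩, ?_⟩, mem_univ _, ?_⟩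
    · rw [← hf]; simp
    · intro a b h
      have := congrArg Subtype.val h
      exact f.injective this
    · ext a; rfl

lemma sum_emb_eq {R : Type*} [CommRing R] (n : ℕ) (H : Finset ι → R) :
    ∑ f : Fin n ↪ ι, H (univ.map f) = (n.factorial : R) * ∑ S ∈ powersetCard n univ, H S := by
  rw [← Finset.sum_fiberwise_of_maps_to (s := (univ : Finset (Fin n ↪ ι))) (t := powersetCard n univ)
    (g := fun f => univ.map f)]
  · rw [Finset.mul_sum]
    refine Finset.sum_congr rfl fun S hS => ?_
    rw [mem_powersetCard] at hS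
    rw [← card_emb_fiber n S hS.2]
    rw [Finset.sum_congr rfl (g := fun _ => H S)]
    · simp
    · intro f hf
      simp only [mem_filter, mem_univ, true_and] at hf
      rw [hf]
  · intro f _
    simp [mem_powersetCard]

/-- expansion of the permanent of `M + 1` over principal submatrices -/
lemma sum_perm_add_one {R : Type*} [CommRing R] (M : ι → ι → R) :
    ∑ σ : Perm ι, ∏ i, (M i (σ i) + if i = σ i then 1 else 0)
      = ∑ S : Finset ι, ∑ τ : Perm S, ∏ i : S, M i (τ i) := by
  have h0 : ∀ σ : Perm ι, ∏ i, (M i (σ i) + if i = σ i then 1 else 0)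
      = ∑ S : Finset ι, (∏ i ∈ S, M i (σ i)) * ∏ i ∈ univ \ S, (if i = σ i then (1:R) else 0) := by
    intro σ
    rw [Finset.prod_add]
    simp
  simp_rw [h0]
  rw [Finset.sum_comm]
  refine Finset.sum_congr rfl fun S _ => ?_
  have h1 : ∀ σ : Perm ι, (∏ i ∈ S, M i (σ i)) * ∏ i ∈ univ \ S, (if i = σ i then (1:R) else 0)
      = if (∀ a, ¬ (a ∈ S) → σ a = a) then ∏ i ∈ S, M i (σ i) else 0 := by
    intro σ
    split_ifs with h
    · have hone : ∏ i ∈ univ \ S, (if i = σ i then (1:R) else 0) = 1 := by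
        refine Finset.prod_eq_one ?_
        intro i hi
        rw [if_pos]
        rw [h i]
        simpa using hi
      rw [hone, mul_one]
    · push Not at h
      obtain ⟨a, ha, hne⟩ := h
      rw [Finset.prod_eq_zero (s := univ \ S) (i := a), mul_zero]
      · simpa using ha
      · rw [if_neg]
        exact fun h => hne h.symm
  simp_rw [h1]
  rw [← Finset.sum_filter]
  rw [Finset.sum_subtype (univ.filter fun σ : Perm ι => ∀ a, ¬ (a ∈ S) → σ a = a) (p := fun σ => ∀ a, ¬ (a ∈ S) → σ a = a)
    (by intro x; simp)]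
  symm
  refine Fintype.sum_equiv (Equiv.Perm.subtypeEquivSubtypePerm (fun a => a ∈ S)) _ _ ?_
  intro τ
  rw [Finset.prod_subtype S (p := fun a => a ∈ S) (by intro x; rfl)]
  refine Finset.prod_congr rfl fun i _ => ?_
  congr 1
  simp [Equiv.Perm.subtypeEquivSubtypePerm]


/-- counting permutations moving `C` onto `T` -/
lemma card_perm_fiber (C T : Finset ι) (h : T.card = C.card) :
    (univ.filter fun τ : Perm ι => C.map τ.toEmbedding = T).card
      = C.card.factorial * (Fintype.card ι - C.card).factorial := by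
  have hpos : 0 < (Numbering.prefixed C).card := by
    rw [Numbering.card_prefixed]; positivity
  obtain ⟨f0, hf0⟩ := Finset.card_pos.mp hpos
  rw [Numbering.mem_prefixed] at hf0
  rw [← h, ← Numbering.card_prefixed T]
  refine Finset.card_bij (fun τ _ => τ.symm.trans f0) ?_ ?_ ?_
  · intro τ hτ
    simp only [mem_filter, mem_univ, true_and] at hτ
    rw [Numbering.mem_prefixed]
    intro x
    rw [h]
    have := hf0 (τ.symm x)
    simp only [Equiv.trans_apply]
    rw [← this, ← hτ]
    simp
  · intro τ _ τ' _ he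
    have h1 : τ.symm = τ'.symm := by
      ext x
      have := congrArg (fun e => f0.symm (e x)) he
      simpa using this
    have := congrArg Equiv.symm h1
    simpa using this
  · intro g hg
    rw [Numbering.mem_prefixed] at hg
    refine ⟨(g.trans f0.symm).symm, ?_, ?_⟩
    · simp only [mem_filter, mem_univ, true_and]
      ext x
      rw [hg x, h]
      simp only [Finset.mem_map_equiv]
      have := hf0 (f0.symm (g x))
      simpa using this
    · ext x; simp

lemma sum_perm_map {R : Type*} [CommRing R] (C : Finset ι) (H : Finset ι → R) :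
    ∑ τ : Perm ι, H (C.map τ.toEmbedding)
      = ((C.card.factorial * (Fintype.card ι - C.card).factorial : ℕ) : R) *
        ∑ T ∈ powersetCard C.card univ, H T := by
  rw [← Finset.sum_fiberwise_of_maps_to (s := (univ : Finset (Perm ι))) (t := powersetCard C.card univ)
    (g := fun τ => C.map τ.toEmbedding)]
  · rw [Finset.mul_sum]
    refine Finset.sum_congr rfl fun T hT => ?_
    rw [mem_powersetCard] at hT
    rw [← card_perm_fiber C T hT.2]
    rw [Finset.sum_congr rfl (g := fun _ => H T)]
    · simp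
    · intro f hf
      simp only [mem_filter, mem_univ, true_and] at hf
      rw [hf]
  · intro f _
    simp [mem_powersetCard]

/-- The permanent of the rank two matrix `y i - y l`. -/
lemma sum_perm_sub {R : Type*} [CommRing R] (y : ι → R) :
    ∑ τ : Perm ι, ∏ i, (y i - y (τ i))
      = ∑ k ∈ range (Fintype.card ι + 1), (-1) ^ k *
          ((k.factorial * (Fintype.card ι - k).factorial : ℕ) : R) *
          (∑ T ∈ powersetCard k univ, ∏ i ∈ T, y i) *
          (∑ T ∈ powersetCard (Fintype.card ι - k) univ, ∏ i ∈ T, y i) := by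
  have h0 : ∀ τ : Perm ι, ∏ i, (y i - y (τ i))
      = ∑ C : Finset ι, (-1) ^ C.card * (∏ i ∈ Cᶜ, y i) * ∏ i ∈ C.map τ.toEmbedding, y i := by
    intro τ
    have : ∀ i, y i - y (τ i) = - y (τ i) + y i := by intro i; ring
    simp_rw [this]
    rw [Finset.prod_add]
    simp only [powerset_univ]
    refine Finset.sum_congr rfl fun C _ => ?_
    rw [Finset.prod_neg, Finset.prod_map]
    simp only [Equiv.coe_toEmbedding]
    rw [← Finset.compl_eq_univ_sdiff]
    ring
  simp_rw [h0]
  rw [Finset.sum_comm]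
  have h1 : ∀ C : Finset ι, ∑ τ : Perm ι, (-1) ^ C.card * (∏ i ∈ Cᶜ, y i) * ∏ i ∈ C.map τ.toEmbedding, y i
      = (-1) ^ C.card * ((C.card.factorial * (Fintype.card ι - C.card).factorial : ℕ) : R) *
        (∑ T ∈ powersetCard C.card univ, ∏ i ∈ T, y i) * (∏ i ∈ Cᶜ, y i) := by
    intro C
    rw [← Finset.mul_sum, sum_perm_map C (fun T => ∏ i ∈ T, y i)]
    ring
  simp_rw [h1]
  rw [← Finset.powerset_univ, Finset.sum_powerset, Finset.card_univ]
  refine Finset.sum_congr rfl fun k hk => ?_
  rw [Finset.mul_sum (s := powersetCard (Fintype.card ι - k) univ)]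
  have hk' : k ≤ Fintype.card ι := by
    rw [mem_range] at hk; omega
  refine Finset.sum_bij' (fun C _ => Cᶜ) (fun C _ => Cᶜ) ?_ ?_ ?_ ?_ ?_
  · intro C hC
    rw [mem_powersetCard] at hC ⊢
    refine ⟨subset_univ _, ?_⟩
    rw [Finset.card_compl, hC.2]
  · intro C hC
    rw [mem_powersetCard] at hC ⊢
    refine ⟨subset_univ _, ?_⟩
    rw [Finset.card_compl, hC.2]
    omega
  · intro C _; simp
  · intro C _; simp
  · intro C hC
    rw [mem_powersetCard] at hC
    rw [hC.2]



/-- sum over injective tuples of a monomial -/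
noncomputable def dist (x : ι → ℤ) (n : ℕ) (e : Fin n → ℕ) : ℤ := ∑ f : Fin n ↪ ι, ∏ t, x (f t) ^ e t

lemma sum_compl_range (h : ι → ℤ) (n : ℕ) (f : Fin n ↪ ι) :
    ∑ i : {i // i ∉ Set.range f}, h i = (∑ i, h i) - ∑ j, h (f j) := by
  have h1 : ∑ i : {i // i ∉ Set.range f}, h i = ∑ i ∈ (univ.map f)ᶜ, h i := by
    symm
    apply Finset.sum_subtype
    intro x
    simp
  rw [h1]
  have h2 := Finset.sum_add_sum_compl (univ.map f) h
  rw [Finset.sum_map] at h2
  linarith

lemma dist_succ (x : ι → ℤ) (n : ℕ) (e : Fin (n+1) → ℕ) :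
    dist x (n+1) e = (∑ i, x i ^ e 0) * dist x n (fun t => e t.succ)
      - ∑ j, dist x n (fun t => e t.succ + if t = j then e 0 else 0) := by
  unfold dist
  rw [← Equiv.sum_comp (Equiv.embeddingFinSucc n ι).symm]
  rw [Fintype.sum_sigma]
  have h1 : ∀ f : Fin n ↪ ι, ∑ i : {i // i ∉ Set.range f},
      ∏ t, x (((Equiv.embeddingFinSucc n ι).symm ⟨f, i⟩) t) ^ e t
      = (∑ i : {i // i ∉ Set.range f}, x i ^ e 0) * ∏ t, x (f t) ^ e t.succ := by
    intro f
    rw [Finset.sum_mul]
    refine Finset.sum_congr rfl fun i _ => ?_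
    rw [Fin.prod_univ_succ]
    simp
  simp_rw [h1]
  have h2 : ∀ f : Fin n ↪ ι, (∑ i : {i // i ∉ Set.range f}, x i ^ e 0)
      = (∑ i, x i ^ e 0) - ∑ j, x (f j) ^ e 0 := fun f => sum_compl_range (fun i => x i ^ e 0) n f
  simp_rw [h2, sub_mul, Finset.sum_sub_distrib, ← Finset.mul_sum]
  congr 1
  simp_rw [Finset.sum_mul]
  rw [Finset.sum_comm]
  refine Finset.sum_congr rfl fun j _ => ?_
  refine Finset.sum_congr rfl fun f _ => ?_
  have : ∀ t, x (f t) ^ (e t.succ + if t = j then e 0 else 0)
      = x (f t) ^ (e t.succ) * (if t = j then x (f j) ^ e 0 else 1) := by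
    intro t
    split_ifs with h
    · subst h; rw [pow_add]
    · simp
  simp_rw [this, Finset.prod_mul_distrib]
  simp
  ring

/-- key congruence: modulo `p^2` sums over injective tuples of monomials of low degree are a
multiple of the power sum -/
lemma dist_modEq (p : ℕ) (x : ι → ℤ) (N : ℕ)
    (hx : ∀ k, k ≤ N → (p : ℤ) ∣ ∑ i, x i ^ k) (n : ℕ) :
    ∀ e : Fin (n+1) → ℕ, (∑ t, e t ≤ N) →
      dist x (n+1) e ≡ (-1) ^ n * (n.factorial : ℤ) * ∑ i, x i ^ (∑ t, e t) [ZMOD (p:ℤ)^2] := by
  induction n with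
  | zero =>
    intro e he
    rw [dist_succ]
    simp [dist]
  | succ n ih =>
    intro e he
    rw [dist_succ]
    have hs : ∑ t, e t = e 0 + ∑ t : Fin (n+1), e t.succ := by
      rw [Fin.sum_univ_succ]
    have hd : (p:ℤ) ∣ dist x (n+1) (fun t => e t.succ) := by
      have h1 := ih (fun t => e t.succ) (by omega)
      have h2 : (p:ℤ) ∣ (-1) ^ n * (n.factorial : ℤ) * ∑ i, x i ^ (∑ t : Fin (n+1), e t.succ) :=
        Dvd.dvd.mul_left (hx _ (by omega)) _
      have h3 : dist x (n+1) (fun t => e t.succ) ≡ 0 [ZMOD (p:ℤ)] :=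
        (h1.of_dvd (dvd_pow_self _ (by norm_num))).trans (Int.modEq_zero_iff_dvd.mpr h2)
      exact Int.modEq_zero_iff_dvd.mp h3
    have h4 : (∑ i, x i ^ e 0) * dist x (n+1) (fun t => e t.succ) ≡ 0 [ZMOD (p:ℤ)^2] := by
      rw [Int.modEq_zero_iff_dvd, pow_two]
      exact mul_dvd_mul (hx _ (by omega)) hd
    have h5 : ∀ j, dist x (n+1) (fun t => e t.succ + if t = j then e 0 else 0)
        ≡ (-1) ^ n * (n.factorial : ℤ) * ∑ i, x i ^ (∑ t, e t) [ZMOD (p:ℤ)^2] := by
      intro j
      have hj : ∑ t : Fin (n+1), (e t.succ + if t = j then e 0 else 0) = ∑ t, e t := by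
        rw [Finset.sum_add_distrib, hs]
        simp
        ring
      have := ih (fun t => e t.succ + if t = j then e 0 else 0) (by rw [hj]; exact he)
      rw [hj] at this
      exact this
    have h6 : ∑ j : Fin (n+1), dist x (n+1) (fun t => e t.succ + if t = j then e 0 else 0)
        ≡ ∑ j : Fin (n+1), (-1) ^ n * (n.factorial : ℤ) * ∑ i, x i ^ (∑ t, e t) [ZMOD (p:ℤ)^2] := by
      exact Int.ModEq.sum (fun j _ => h5 j)
    have h7 := h4.sub h6
    refine h7.trans ?_
    have : (0:ℤ) - ∑ j : Fin (n+1), (-1) ^ n * (n.factorial : ℤ) * ∑ i, x i ^ (∑ t, e t)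
        = (-1) ^ (n+1) * ((n+1).factorial : ℤ) * ∑ i, x i ^ (∑ t, e t) := by
      rw [Finset.sum_const, Finset.card_univ, Fintype.card_fin, Nat.factorial_succ]
      push_cast
      simp
      ring
    rw [this]


end Pool.Agent.Lib.MP_73edb1_nt
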