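import Pool.Agent.Lib.MP_73edb1_nt.Top

set_option autoImplicit false
open Finset Equiv

namespace Pool.Agent.Lib.MP_73edb1_nt

lemma esy_card {ι : Type*} (x : ι → ℤ) (S : Finset ι) : esy x S.card S = ∏ i ∈ S, x i := by
  unfold esy
  rw [Finset.powersetCard_self, Finset.sum_singleton]

lemma powerSum_dvd (p : ℕ) (hp : p.Prime) (k : ℕ) (hk : k + 1 ≤ p - 1) :
    (p:ℤ) ∣ ∑ i : Fin p, (i:ℤ) ^ k := by
  have := Fact.mk hp
  rw [← ZMod.intCast_zmod_eq_zero_iff_dvd]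
  push_cast
  have h := FiniteField.sum_pow_lt_card_sub_one (K := ZMod p) k (by rw [ZMod.card]; omega)
  rw [← h]
  refine Fintype.sum_bijective (fun i : Fin p => ((i : ℕ) : ZMod p)) ?_ _ _ ?_
  · rw [Fintype.bijective_iff_injective_and_card]
    constructor
    · intro a b h
      have := (ZMod.natCast_eq_natCast_iff' _ _ _).mp h
      rw [Nat.mod_eq_of_lt a.2, Nat.mod_eq_of_lt b.2] at this
      exact Fin.ext this
    · simp [ZMod.card]
  · intro i; simp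

section
variable (n : ℕ)

lemma prod_erase_zero : ∏ i ∈ (univ : Finset (Fin (n+1))).erase 0, ((i:ℕ):ℤ) = (n.factorial : ℤ) := by
  have : (univ : Finset (Fin (n+1))).erase 0 = univ.map (Fin.succEmb n) := by
    ext a
    simp only [mem_erase, mem_univ, and_true, Finset.mem_map, true_and]
    constructor
    · intro h
      obtain ⟨b, rfl⟩ := Fin.exists_succ_eq.mpr h
      exact ⟨b, rfl⟩
    · rintro ⟨b, rfl⟩
      exact Fin.succ_ne_zero b
  rw [this, Finset.prod_map]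
  simp only [Fin.coe_succEmb, Fin.val_succ]
  rw [Fin.prod_univ_eq_prod_range (fun i => (((i+1 : ℕ)) : ℤ)) n]
  rw [← Finset.prod_range_add_one_eq_factorial]
  push_cast
  rfl

lemma prod_erase_ne (a : Fin (n+1)) (ha : a ≠ 0) :
    ∏ i ∈ (univ : Finset (Fin (n+1))).erase a, ((i:ℕ):ℤ) = 0 := by
  apply Finset.prod_eq_zero (i := 0)
  · simpa using ha.symm
  · simp

lemma card_erase_fin (a : Fin (n+1)) : ((univ : Finset (Fin (n+1))).erase a).card = n := by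
  rw [Finset.card_erase_of_mem (mem_univ _)]; simp

lemma sum_esy_erase : ∑ a, esy (fun i : Fin (n+1) => ((i:ℕ):ℤ)) n (univ.erase a) = (n.factorial : ℤ) := by
  have h : ∀ a, esy (fun i : Fin (n+1) => ((i:ℕ):ℤ)) n (univ.erase a) = ∏ i ∈ univ.erase a, ((i:ℕ):ℤ) := by
    intro a
    have := esy_card (fun i : Fin (n+1) => ((i:ℕ):ℤ)) (univ.erase a)
    rw [card_erase_fin] at this
    exact this
  simp_rw [h]
  rw [Finset.sum_eq_single 0]
  · exact prod_erase_zero n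
  · intro a _ ha; exact prod_erase_ne n a ha
  · intro h; simp at h

lemma esy_univ (hn : 1 ≤ n) : esy (fun i : Fin (n+1) => ((i:ℕ):ℤ)) n univ = (n.factorial : ℤ) := by
  obtain ⟨k, rfl⟩ : ∃ k, n = k + 1 := ⟨n - 1, by omega⟩
  have h1 := esy_succ_insert (fun i : Fin (k+1+1) => ((i:ℕ):ℤ)) (univ.erase 0) 0 (by simp) k
  rw [Finset.insert_erase (mem_univ _)] at h1
  rw [h1]
  have h2 := esy_card (fun i : Fin (k+1+1) => ((i:ℕ):ℤ)) (univ.erase 0)
  rw [card_erase_fin] at h2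
  rw [h2, prod_erase_zero]
  simp

lemma powerSum_top (hp : (n+1).Prime) (hn : Even n) (hn1 : 1 ≤ n) :
    ∑ a : Fin (n+1), ((a:ℕ):ℤ) ^ n ≡ (1 - ((n+1 : ℕ):ℤ)) * (n.factorial : ℤ) [ZMOD ((n+1 : ℕ):ℤ)^2] := by
  have hx : ∀ k, k + 1 ≤ n → ((n+1 : ℕ) : ℤ) ∣ ∑ i : Fin (n+1), ((i:ℕ):ℤ) ^ k := by
    intro k hk
    exact powerSum_dvd (n+1) hp k (by simpa using hk)
  have hes : ∀ j, 1 ≤ j → j + 1 ≤ n → ((n+1 : ℕ):ℤ) ∣ esy (fun i : Fin (n+1) => ((i:ℕ):ℤ)) j univ := by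
    intro j hj hj'
    obtain ⟨i, rfl⟩ : ∃ i, j = i + 1 := ⟨j - 1, by omega⟩
    exact dvd_esy (n+1) hp _ (n-1) (by omega) (fun k hk => hx k (by omega)) i (by omega)
  have h1 := sum_esy_erase n
  simp_rw [esy_erase] at h1
  rw [Finset.sum_comm] at h1
  simp_rw [← Finset.mul_sum] at h1
  rw [Finset.sum_range_succ] at h1
  obtain ⟨k, hk⟩ : ∃ k, n = k + 1 := ⟨n - 1, by omega⟩
  rw [esy_univ n hn1] at h1
  simp only [Nat.sub_self, pow_zero, sum_const, card_univ, Fintype.card_fin, nsmul_eq_mul, mul_one] at h1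
  have h2 : ∑ j ∈ range n, esy (fun i : Fin (n+1) => ((i:ℕ):ℤ)) j univ * ∑ a : Fin (n+1), (- ((a:ℕ):ℤ)) ^ (n - j)
      ≡ ∑ j ∈ range n, (if j = 0 then ∑ a : Fin (n+1), ((a:ℕ):ℤ) ^ n else 0) [ZMOD ((n+1 : ℕ):ℤ)^2] := by
    refine Int.ModEq.sum fun j hj => ?_
    rw [mem_range] at hj
    by_cases hj0 : j = 0
    · subst hj0
      simp only [esy_zero, if_true, Nat.sub_zero, one_mul]
      simp_rw [hn.neg_pow]
      rfl
    · rw [if_neg hj0, Int.modEq_zero_iff_dvd, pow_two]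
      refine mul_dvd_mul (hes j (by omega) (by omega)) ?_
      have : ∀ a : Fin (n+1), (- ((a:ℕ):ℤ)) ^ (n - j) = (-1)^(n-j) * ((a:ℕ):ℤ) ^ (n-j) := by
        intro a; rw [neg_pow]
      simp_rw [this, ← Finset.mul_sum]
      exact Dvd.dvd.mul_left (hx _ (by omega)) _
  have h3 : ∑ j ∈ range n, (if j = 0 then ∑ a : Fin (n+1), ((a:ℕ):ℤ) ^ n else 0) = ∑ a : Fin (n+1), ((a:ℕ):ℤ) ^ n := by
    rw [Finset.sum_eq_single 0]
    · simp
    · intro j _ hj; simp [hj]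
    · intro h; simp at h; omega
  rw [h3] at h2
  have h4 : ∑ j ∈ range n, esy (fun i : Fin (n+1) => ((i:ℕ):ℤ)) j univ * ∑ a : Fin (n+1), (- ((a:ℕ):ℤ)) ^ (n - j)
      = (1 - ((n+1 : ℕ):ℤ)) * (n.factorial : ℤ) := by
    linarith
  rw [h4] at h2
  exact h2.symm

end

end Pool.Agent.Lib.MP_73edb1_nt
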