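import Pool.Agent.Lib.MP_73edb1_nt.Basic

set_option autoImplicit false
open Finset Equiv

namespace Pool.Agent.Lib.MP_73edb1_nt

/-- the permanent of `x i - x l` over a finset -/
def subPer {ι : Type*} [DecidableEq ι] (x : ι → ℤ) (S : Finset ι) : ℤ :=
  ∑ τ : Perm S, ∏ i : S, (x i - x (τ i))

/-- elementary symmetric sums -/
def esy {ι : Type*} (x : ι → ℤ) (k : ℕ) (S : Finset ι) : ℤ :=
  ∑ T ∈ powersetCard k S, ∏ i ∈ T, x i

lemma sum_perm_congr {α β : Type*} [Fintype α] [Fintype β] [DecidableEq α] [DecidableEq β]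
    (e : α ≃ β) (y : β → ℤ) :
    ∑ τ : Perm β, ∏ i, (y i - y (τ i)) = ∑ τ : Perm α, ∏ i, (y (e i) - y (e (τ i))) := by
  rw [← Equiv.sum_comp (Equiv.permCongr e)]
  refine Finset.sum_congr rfl fun τ _ => ?_
  rw [← Equiv.prod_comp e]
  refine Finset.prod_congr rfl fun i _ => ?_
  simp [Equiv.permCongr_apply]

variable {ι : Type*} [Fintype ι] [DecidableEq ι]

lemma subPer_map (x : ι → ℤ) (n : ℕ) (f : Fin n ↪ ι) :
    subPer x (univ.map f) = ∑ τ : Perm (Fin n), ∏ i, (x (f i) - x (f (τ i))) := by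
  unfold subPer
  let e : Fin n ≃ (univ.map f : Finset ι) := 
    Equiv.ofBijective (fun i => ⟨f i, by simp⟩) (by
      constructor
      · intro a b h
        exact f.injective (congrArg Subtype.val h)
      · rintro ⟨b, hb⟩
        simp only [Finset.mem_map, mem_univ, true_and] at hb
        obtain ⟨a, rfl⟩ := hb
        exact ⟨a, rfl⟩)
  rw [sum_perm_congr e (fun i => x i)]
  rfl

lemma sum_emb_prod_sub (p : ℕ) (x : ι → ℤ) (N : ℕ)
    (hx : ∀ k, k ≤ N → (p : ℤ) ∣ ∑ i, x i ^ k) (n : ℕ) (hn : n + 1 ≤ N) (τ : Perm (Fin (n+1))) :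
    ∑ f : Fin (n+1) ↪ ι, ∏ i, (x (f i) - x (f (τ i))) ≡ 0 [ZMOD (p:ℤ)^2] := by
  have h0 : ∀ f : Fin (n+1) ↪ ι, ∏ i, (x (f i) - x (f (τ i)))
      = ∑ C : Finset (Fin (n+1)), (-1) ^ C.card *
        ∏ t, x (f t) ^ ((if t ∈ C then 0 else 1) + if τ.symm t ∈ C then 1 else 0) := by
    intro f
    have : ∀ i, x (f i) - x (f (τ i)) = - x (f (τ i)) + x (f i) := by intro i; ring
    simp_rw [this]
    rw [Finset.prod_add]
    simp only [powerset_univ]
    refine Finset.sum_congr rfl fun C _ => ?_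
    rw [Finset.prod_neg]
    simp_rw [pow_add, Finset.prod_mul_distrib]
    have h1 : ∏ t, x (f t) ^ (if t ∈ C then 0 else 1) = ∏ i ∈ univ \ C, x (f i) := by
      rw [← Finset.compl_eq_univ_sdiff]
      rw [← Finset.prod_filter_mul_prod_filter_not univ (fun t => t ∈ C)]
      rw [Finset.prod_eq_one (s := univ.filter fun t => t ∈ C)]
      · rw [one_mul]
        have : (univ.filter fun t => ¬ t ∈ C) = Cᶜ := by ext t; simp
        rw [this]
        refine Finset.prod_congr rfl fun i hi => ?_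
        rw [if_neg (by simpa using hi), pow_one]
      · intro i hi
        simp only [mem_filter, mem_univ, true_and] at hi
        rw [if_pos hi, pow_zero]
    have h2 : ∏ t, x (f t) ^ (if τ.symm t ∈ C then 1 else 0) = ∏ i ∈ C, x (f (τ i)) := by
      rw [← Equiv.prod_comp τ]
      simp only [Equiv.symm_apply_apply]
      rw [← Finset.prod_filter_mul_prod_filter_not univ (fun t => t ∈ C)]
      rw [Finset.prod_eq_one (s := univ.filter fun t => ¬ t ∈ C)]
      · rw [mul_one]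
        have : (univ.filter fun t => t ∈ C) = C := by ext t; simp
        rw [this]
        refine Finset.prod_congr rfl fun i hi => ?_
        rw [if_pos hi, pow_one]
      · intro i hi
        simp only [mem_filter, mem_univ, true_and] at hi
        rw [if_neg hi, pow_zero]
    rw [h1, h2]
    ring
  simp_rw [h0]
  rw [Finset.sum_comm]
  simp_rw [← Finset.mul_sum]
  have h3 : ∀ C : Finset (Fin (n+1)), 
      ∑ t, ((if t ∈ C then 0 else 1) + if τ.symm t ∈ C then 1 else 0) = n + 1 := by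
    intro C
    rw [Finset.sum_add_distrib]
    have ha : ∑ t : Fin (n+1), (if τ.symm t ∈ C then 1 else 0) = ∑ t : Fin (n+1), (if t ∈ C then 1 else 0) := by
      rw [← Equiv.sum_comp τ]
      simp
    rw [ha, ← Finset.sum_add_distrib]
    have : ∀ t : Fin (n+1), ((if t ∈ C then 0 else 1) + if t ∈ C then 1 else 0) = 1 := by
      intro t; split_ifs <;> rfl
    simp_rw [this]
    simp
  have h4 : ∀ C : Finset (Fin (n+1)), (-1:ℤ) ^ C.card * ∑ f : Fin (n+1) ↪ ι,
        ∏ t, x (f t) ^ ((if t ∈ C then 0 else 1) + if τ.symm t ∈ C then 1 else 0)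
      ≡ (-1) ^ C.card * ((-1) ^ n * (n.factorial : ℤ) * ∑ i, x i ^ (n+1)) [ZMOD (p:ℤ)^2] := by
    intro C
    refine Int.ModEq.mul_left _ ?_
    have := dist_modEq p x N hx n (fun t => (if t ∈ C then 0 else 1) + if τ.symm t ∈ C then 1 else 0)
      (by rw [h3]; exact hn)
    rw [h3] at this
    exact this
  refine (Int.ModEq.sum (fun C _ => h4 C)).trans ?_
  rw [← Finset.sum_mul]
  have h5 : ∑ C : Finset (Fin (n+1)), (-1:ℤ) ^ C.card = 0 := by
    have := Finset.sum_powerset_neg_one_pow_card_of_nonempty (x := (univ : Finset (Fin (n+1)))) univ_nonempty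
    rw [← Finset.powerset_univ]
    exact this
  rw [h5, zero_mul]

lemma sum_subPer_card (p : ℕ) (hp : p.Prime) (x : ι → ℤ) (N : ℕ) (hN : N < p)
    (hx : ∀ k, k ≤ N → (p : ℤ) ∣ ∑ i, x i ^ k) (n : ℕ) (hn : n + 1 ≤ N) :
    ∑ S ∈ powersetCard (n+1) (univ : Finset ι), subPer x S ≡ 0 [ZMOD (p:ℤ)^2] := by
  have h1 := sum_emb_eq (n+1) (subPer x)
  have h2 : ∑ f : Fin (n+1) ↪ ι, subPer x (univ.map f) ≡ 0 [ZMOD (p:ℤ)^2] := by
    simp_rw [subPer_map]
    rw [Finset.sum_comm]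
    have : ∀ τ ∈ (univ : Finset (Perm (Fin (n+1)))),
      ∑ f : Fin (n+1) ↪ ι, ∏ i, (x (f i) - x (f (τ i))) ≡ 0 [ZMOD (p:ℤ)^2] :=
      fun τ _ => sum_emb_prod_sub p x N hx n hn τ
    have h := Int.ModEq.sum this
    simpa using h
  rw [h1] at h2
  rw [Int.modEq_zero_iff_dvd] at h2 ⊢
  refine IsCoprime.dvd_of_dvd_mul_left ?_ h2
  apply IsCoprime.pow_left
  rw [Int.isCoprime_iff_gcd_eq_one]
  have : ¬ p ∣ (n+1).factorial := by
    rw [hp.dvd_factorial]; omega
  rw [Int.gcd_natCast_natCast]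
  exact (Nat.Prime.coprime_iff_not_dvd hp).mpr this

/-- the elementary symmetric sums are divisible by `p` -/
lemma dvd_esy (p : ℕ) (hp : p.Prime) (x : ι → ℤ) (N : ℕ) (hN : N < p)
    (hx : ∀ k, k ≤ N → (p : ℤ) ∣ ∑ i, x i ^ k) (n : ℕ) (hn : n + 1 ≤ N) :
    (p:ℤ) ∣ esy x (n+1) univ := by
  have h1 := sum_emb_eq (n+1) (fun T => ∏ i ∈ T, x i)
  have h2 : ∑ f : Fin (n+1) ↪ ι, ∏ i ∈ univ.map f, x i = dist x (n+1) (fun _ => 1) := by
    unfold dist
    simp
  have h3 := dist_modEq p x N hx n (fun _ => 1) (by simpa using hn)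
  have h4 : (p:ℤ) ∣ (-1) ^ n * (n.factorial : ℤ) * ∑ i, x i ^ (∑ t : Fin (n+1), 1) :=
    Dvd.dvd.mul_left (hx _ (by simpa using hn)) _
  have h5 : (p:ℤ) ∣ dist x (n+1) (fun _ => 1) := by
    have h3' : dist x (n+1) (fun _ => 1) ≡ 0 [ZMOD (p:ℤ)] :=
        (h3.of_dvd (dvd_pow_self _ (by norm_num))).trans (Int.modEq_zero_iff_dvd.mpr h4)
    exact Int.modEq_zero_iff_dvd.mp h3'
  rw [← h2] at h5
  rw [h1] at h5
  have h6 : IsCoprime (p:ℤ) ((n+1).factorial : ℤ) := by
    rw [Int.isCoprime_iff_gcd_eq_one]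
    have : ¬ p ∣ (n+1).factorial := by
      rw [hp.dvd_factorial]; omega
    rw [Int.gcd_natCast_natCast]
    exact (Nat.Prime.coprime_iff_not_dvd hp).mpr this
  exact IsCoprime.dvd_of_dvd_mul_left h6 h5

end Pool.Agent.Lib.MP_73edb1_nt
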