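import Pool.Agent.Lib.MP_73edb1_nt.Sub

set_option autoImplicit false
open Finset Equiv

namespace Pool.Agent.Lib.MP_73edb1_nt

lemma esy_univ_subtype {ι : Type*} [DecidableEq ι] (x : ι → ℤ) (k : ℕ) (S : Finset ι) :
    ∑ T ∈ powersetCard k (univ : Finset S), ∏ i ∈ T, x i = esy x k S := by
  unfold esy
  have h : (univ : Finset S).map (Function.Embedding.subtype _) = S := by
    ext a; simp
  conv_rhs => rw [← h, Finset.powersetCard_map, Finset.sum_map]
  refine Finset.sum_congr rfl fun T _ => ?_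
  simp

lemma subPer_eq {ι : Type*} [DecidableEq ι] (x : ι → ℤ) (S : Finset ι) :
    subPer x S = ∑ k ∈ range (S.card + 1), (-1) ^ k *
          ((k.factorial * (S.card - k).factorial : ℕ) : ℤ) * esy x k S * esy x (S.card - k) S := by
  unfold subPer
  rw [sum_perm_sub (fun i : S => x i)]
  simp only [esy_univ_subtype, Fintype.card_coe]

variable {ι : Type*} [Fintype ι] [DecidableEq ι]

omit [Fintype ι] [DecidableEq ι] in
lemma esy_zero (x : ι → ℤ) (S : Finset ι) : esy x 0 S = 1 := by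
  simp [esy]

omit [Fintype ι] in
lemma esy_succ_insert (x : ι → ℤ) (S : Finset ι) (a : ι) (ha : a ∉ S) (k : ℕ) :
    esy x (k+1) (insert a S) = esy x (k+1) S + x a * esy x k S := by
  unfold esy
  rw [Finset.powersetCard_succ_insert ha, Finset.sum_union, Finset.sum_image]
  · congr 1
    rw [Finset.mul_sum]
    refine Finset.sum_congr rfl fun T hT => ?_
    rw [Finset.prod_insert]
    intro h
    exact ha ((mem_powersetCard.mp hT).1 h)
  · intro T hT T' hT' h
    have h1 : a ∉ T := fun h => ha ((mem_powersetCard.mp hT).1 h)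
    have h2 : a ∉ T' := fun h => ha ((mem_powersetCard.mp hT').1 h)
    rw [← Finset.erase_insert h1, ← Finset.erase_insert h2, h]
  · rw [Finset.disjoint_left]
    intro T hT hT'
    rw [mem_image] at hT'
    obtain ⟨T', _, rfl⟩ := hT'
    exact ha ((mem_powersetCard.mp hT).1 (mem_insert_self _ _))

lemma esy_erase (x : ι → ℤ) (a : ι) (k : ℕ) :
    esy x k (univ.erase a) = ∑ j ∈ range (k+1), esy x j univ * (- x a) ^ (k - j) := by
  induction k with
  | zero => simp [esy_zero]
  | succ k ih =>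
    have h1 := esy_succ_insert x (univ.erase a) a (by simp) k
    rw [Finset.insert_erase (mem_univ a)] at h1
    rw [Finset.sum_range_succ, Nat.sub_self, pow_zero, mul_one]
    have h2 : ∑ j ∈ range (k+1), esy x j univ * (- x a) ^ (k + 1 - j)
        = (- x a) * ∑ j ∈ range (k+1), esy x j univ * (- x a) ^ (k - j) := by
      rw [Finset.mul_sum]
      refine Finset.sum_congr rfl fun j hj => ?_
      have : k + 1 - j = (k - j) + 1 := by
        rw [mem_range] at hj; omega
      rw [this, pow_succ]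
      ring
    rw [h2, ← ih]
    linarith

/-- alternating sum identity -/
lemma alt_sum_factorial (m : ℕ) :
    ((m:ℤ) + 2) * ∑ k ∈ range (m+1), (-1) ^ k * ((k.factorial * (m - k).factorial : ℕ) : ℤ)
      = (1 + (-1)^m) * ((m+1).factorial : ℤ) := by
  obtain ⟨G, hG⟩ : ∃ G : ℕ → ℤ, ∀ k, G k = - ((-1:ℤ)^k * ((k.factorial * (m + 1 - k).factorial : ℕ) : ℤ)) :=
    ⟨_, fun _ => rfl⟩
  have h : ∀ k ∈ range (m+1), ((m:ℤ) + 2) * ((-1) ^ k * ((k.factorial * (m - k).factorial : ℕ) : ℤ))
      = G (k+1) - G k := by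
    intro k hk
    rw [hG, hG]
    rw [mem_range] at hk
    obtain ⟨d, rfl⟩ : ∃ d, m = k + d := ⟨m - k, by omega⟩
    have e1 : k + d - k = d := by omega
    have e2 : k + d + 1 - (k + 1) = d := by omega
    have e3 : k + d + 1 - k = d + 1 := by omega
    simp only [e1, e2, e3, Nat.factorial_succ]
    push_cast
    ring
  rw [Finset.mul_sum, Finset.sum_congr rfl h, Finset.sum_range_sub, hG, hG]
  simp only [Nat.factorial_zero, Nat.sub_self, Nat.sub_zero, pow_zero, one_mul, mul_one]
  ring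

/-- sum over the deleted index of the product of two elementary symmetric sums, middle terms -/
lemma sum_esy_mul (p : ℕ) (hp : p.Prime) (x : ι → ℤ) (m : ℕ) (hm : m + 1 = p) (hme : Even m)
    (hx : ∀ k, k + 1 ≤ m → (p : ℤ) ∣ ∑ i, x i ^ k) (k : ℕ) (hk : 1 ≤ k) (hkm : k + 1 ≤ m) :
    ∑ a, esy x k (univ.erase a) * esy x (m - k) (univ.erase a) ≡ ∑ a, x a ^ m [ZMOD (p:ℤ)^2] := by
  have hx' : ∀ k, k ≤ m - 1 → (p : ℤ) ∣ ∑ i, x i ^ k := fun k hk => hx k (by omega)
  have hes : ∀ j, 1 ≤ j → j + 1 ≤ m → (p:ℤ) ∣ esy x j univ := by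
    intro j hj hj'
    obtain ⟨i, rfl⟩ : ∃ i, j = i + 1 := ⟨j - 1, by omega⟩
    exact dvd_esy p hp x (m-1) (by omega) hx' i (by omega)
  have h1 : ∀ a, esy x k (univ.erase a) * esy x (m - k) (univ.erase a)
      = ∑ j ∈ range (k+1), ∑ l ∈ range (m-k+1), esy x j univ * esy x l univ * (-1)^(m-j-l) * x a ^ (m-j-l) := by
    intro a
    rw [esy_erase, esy_erase, Finset.sum_mul_sum]
    refine Finset.sum_congr rfl fun j hj => Finset.sum_congr rfl fun l hl => ?_
    rw [mem_range] at hj hl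
    have : m - j - l = (k - j) + (m - k - l) := by omega
    rw [this, neg_pow (x a) (k - j), neg_pow (x a) (m - k - l), pow_add, pow_add]
    ring
  simp_rw [h1]
  rw [Finset.sum_comm]
  have h2 : ∀ j ∈ range (k+1), ∑ a, ∑ l ∈ range (m-k+1), esy x j univ * esy x l univ * (-1)^(m-j-l) * x a ^ (m-j-l)
      = ∑ l ∈ range (m-k+1), esy x j univ * esy x l univ * (-1)^(m-j-l) * ∑ a, x a ^ (m-j-l) := by
    intro j _
    rw [Finset.sum_comm]
    simp_rw [Finset.mul_sum]
  rw [Finset.sum_congr rfl h2]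
  have h3 : ∀ j ∈ range (k+1), ∀ l ∈ range (m-k+1), 
      esy x j univ * esy x l univ * (-1)^(m-j-l) * ∑ a, x a ^ (m-j-l) ≡
        (if j = 0 then (if l = 0 then ∑ a, x a ^ m else 0) else 0) [ZMOD (p:ℤ)^2] := by
    intro j hj l hl
    rw [mem_range] at hj hl
    by_cases hj0 : j = 0
    · subst hj0
      by_cases hl0 : l = 0
      · subst hl0
        simp only [esy_zero, if_true, Nat.sub_zero, one_mul]
        rw [hme.neg_one_pow, one_mul]
      · rw [if_pos rfl, if_neg hl0, Int.modEq_zero_iff_dvd, pow_two]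
        have a1 : (p:ℤ) ∣ esy x 0 univ * esy x l univ * (-1)^(m-0-l) :=
          Dvd.dvd.mul_right (Dvd.dvd.mul_left (hes l (by omega) (by omega)) _) _
        exact mul_dvd_mul a1 (hx _ (by omega))
    · rw [if_neg hj0, Int.modEq_zero_iff_dvd, pow_two]
      have a1 : (p:ℤ) ∣ esy x j univ * esy x l univ * (-1)^(m-j-l) :=
          Dvd.dvd.mul_right (Dvd.dvd.mul_right (hes j (by omega) (by omega)) _) _
      exact mul_dvd_mul a1 (hx _ (by omega))
  refine (Int.ModEq.sum fun j hj => Int.ModEq.sum fun l hl => h3 j hj l hl).trans ?_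
  have : ∑ j ∈ range (k+1), ∑ l ∈ range (m-k+1), (if j = 0 then (if l = 0 then ∑ a, x a ^ m else 0) else 0)
      = ∑ a, x a ^ m := by
    rw [Finset.sum_eq_single 0]
    · simp
    · intro j _ hj; simp [hj]
    · intro h; simp at h
  rw [this]

end Pool.Agent.Lib.MP_73edb1_nt
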